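import Pool.Agent.helper62.VN.SpecG

/-!
# MP_07c750 (QUE), project VN, row GUC: curves in the unstable cone of a close potential
-/

set_option autoImplicit false

open scoped MatrixGroups ContDiff Topology UpperHalfPlane
open UpperHalfPlane MeasureTheory Filter Set

namespace Pool.Agent.VNE

open Pool.Agent.RS Pool.Agent.VQE
open Pool.Agent.VQ (Dyn rho kap n1 n2 hess Ug TF)
open Pool.Agent.VN (PotN OKN Kg)

noncomputable section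

theorem GUC_inv (C s r r' : ℝ) (hC : 1 ≤ C) (h1 : 1 / C ≤ r) (h3 : 1 / C ≤ r') (h9 : |r' - r| ≤ C * s) :
    0 < r ∧ 0 < r' ∧ 0 < r⁻¹ ∧ r⁻¹ ≤ C ∧ 0 < r'⁻¹ ∧ r'⁻¹ ≤ C ∧ |r⁻¹ - r'⁻¹| ≤ C ^ 3 * s := by
  have hC0 : 0 < C := by linarith
  have hc : 0 < 1 / C := by positivity
  have hr : 0 < r := by linarith
  have hr' : 0 < r' := by linarith
  have i1 : r⁻¹ ≤ C := by
    rw [inv_le_comm₀ hr hC0, ← one_div]
    exact h1
  have i2 : r'⁻¹ ≤ C := by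
    rw [inv_le_comm₀ hr' hC0, ← one_div]
    exact h3
  have p1 : 0 < r⁻¹ := inv_pos.mpr hr
  have p2 : 0 < r'⁻¹ := inv_pos.mpr hr'
  refine ⟨hr, hr', p1, i1, p2, i2, ?_⟩
  have e : r⁻¹ - r'⁻¹ = (r' - r) * (r⁻¹ * r'⁻¹) := by
    field_simp
  have hp : 0 < r⁻¹ * r'⁻¹ := mul_pos p1 p2
  have hq : r⁻¹ * r'⁻¹ ≤ C * C := mul_le_mul i1 i2 p2.le hC0.le
  rw [e, abs_mul, abs_of_pos hp]
  calc |r' - r| * (r⁻¹ * r'⁻¹) ≤ (C * s) * (C * C) := mul_le_mul h9 hq hp.le (le_trans (abs_nonneg _) h9)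
    _ = C ^ 3 * s := by ring

theorem GUC_alg (C C1 s r r' n n' κ κ' b c x d J' W' J W : ℝ) (hC : 1 ≤ C) (hC1 : 1 ≤ C1) (hs : 0 ≤ s) (hs1 : s * (8 * C ^ 8 * C1 ^ 2) ≤ 1)
    (h1 : 1 / C ≤ r) (h3 : 1 / C ≤ r') (h6 : |n'| ≤ C) (h8 : |κ'| ≤ C)
    (h9 : |r' - r| ≤ C * s) (h10 : |κ' - κ| ≤ C * s) (h11 : |n' - n| ≤ C * s)
    (hJ' : J' = -(r' * (b + c))) (hW' : W' = (b - c) - n' / (2 * r' ^ 2) * (b + c) - κ' * x / r')
    (hJ : J = -(r * (b + c))) (hW : W = (b - c) - n / (2 * r ^ 2) * (b + c) + 2 * (-κ / 2) * x / r)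
    (hd : 0 < d) (c1 : d / C1 ≤ J') (c2 : J' ≤ C1 * d) (c3 : J' ≤ C1 * W') (c4 : W' ≤ C1 * J') (c5 : |x| ≤ C1 * J') :
    d / (10 * C1) ≤ J ∧ J ≤ 10 * C1 * d ∧ J ≤ 10 * C1 * W ∧ W ≤ 10 * C1 * J ∧ |x| ≤ 10 * C1 * J := by
  have hC0 : 0 < C := by linarith
  have hC10 : 0 < C1 := by linarith
  obtain ⟨hr, hr', p1, i1, p2, i2, hi⟩ := GUC_inv C s r r' hC h1 h3 h9
  have hJ0 : 0 < J' := lt_of_lt_of_le (div_pos hd hC10) c1
  -- powers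
  have q2 : C ^ 2 ≤ C ^ 8 := pow_le_pow_right₀ hC (by norm_num)
  have q6 : C ^ 6 ≤ C ^ 8 := pow_le_pow_right₀ hC (by norm_num)
  have q0 : 1 ≤ C ^ 8 := one_le_pow₀ hC
  have w2 : 1 ≤ C1 ^ 2 := one_le_pow₀ hC1
  have s1 : s * C ^ 2 ≤ 1 / 8 := by
    have a1 : s * C ^ 2 ≤ s * C ^ 8 := mul_le_mul_of_nonneg_left q2 hs
    have a2 : s * C ^ 8 ≤ s * C ^ 8 * C1 ^ 2 := le_mul_of_one_le_right (by positivity) w2
    nlinarith
  have s2 : 4 * C ^ 6 * C1 * s * (2 * C1) ≤ 1 := by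
    have a1 : s * C1 ^ 2 * C ^ 6 ≤ s * C1 ^ 2 * C ^ 8 := mul_le_mul_of_nonneg_left q6 (by positivity)
    nlinarith
  -- `b + c`
  have hbc : |b + c| ≤ C * J' := by
    have e1 : b + c = -(J' * r'⁻¹) := by
      rw [hJ']
      field_simp
    rw [e1, abs_neg, abs_mul, abs_of_pos hJ0, abs_of_pos p2, mul_comm]
    exact mul_le_mul_of_nonneg_right i2 hJ0.le
  -- `J`
  have hJJ : |J - J'| ≤ J' / 2 := by
    have e1 : J - J' = (r' - r) * (b + c) := by rw [hJ, hJ']; ring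
    rw [e1, abs_mul]
    calc |r' - r| * |b + c| ≤ (C * s) * (C * J') := mul_le_mul h9 hbc (abs_nonneg _) (by positivity)
      _ = (s * C ^ 2) * J' := by ring
      _ ≤ 1 / 8 * J' := mul_le_mul_of_nonneg_right s1 hJ0.le
      _ ≤ J' / 2 := by linarith
  -- `W`
  have e2 : W - W' = (n' * r'⁻¹ ^ 2 - n * r⁻¹ ^ 2) / 2 * (b + c) + (κ' * r'⁻¹ - κ * r⁻¹) * x := by
    rw [hW, hW']
    field_simp
    ring
  have e3 : |n' * r'⁻¹ ^ 2 - n * r⁻¹ ^ 2| ≤ 4 * C ^ 5 * s := by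
    have e : n' * r'⁻¹ ^ 2 - n * r⁻¹ ^ 2 = (n' - n) * r⁻¹ ^ 2 - n' * ((r⁻¹ - r'⁻¹) * (r⁻¹ + r'⁻¹)) := by ring
    have t1 : |(n' - n) * r⁻¹ ^ 2| ≤ (C * s) * C ^ 2 := by
      rw [abs_mul, abs_of_nonneg (by positivity : (0 : ℝ) ≤ r⁻¹ ^ 2)]
      exact mul_le_mul h11 (pow_le_pow_left₀ p1.le i1 2) (by positivity) (by positivity)
    have t2 : |n' * ((r⁻¹ - r'⁻¹) * (r⁻¹ + r'⁻¹))| ≤ C * ((C ^ 3 * s) * (2 * C)) := by
      rw [abs_mul, abs_mul, abs_of_pos (by positivity : (0 : ℝ) < r⁻¹ + r'⁻¹)]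
      refine mul_le_mul h6 ?_ (by positivity) hC0.le
      exact mul_le_mul hi (by linarith) (by positivity) (by positivity)
    have t3 : C ^ 3 ≤ C ^ 5 := pow_le_pow_right₀ hC (by norm_num)
    have t4 : C ^ 3 * s ≤ C ^ 5 * s := mul_le_mul_of_nonneg_right t3 hs
    have t5 : 0 ≤ C ^ 5 * s := by positivity
    rw [e]
    refine (abs_sub _ _).trans ?_
    nlinarith
  have e4 : |κ' * r'⁻¹ - κ * r⁻¹| ≤ 2 * C ^ 4 * s := by
    have e : κ' * r'⁻¹ - κ * r⁻¹ = (κ' - κ) * r⁻¹ - κ' * (r⁻¹ - r'⁻¹) := by ring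
    have t1 : |(κ' - κ) * r⁻¹| ≤ (C * s) * C := by
      rw [abs_mul, abs_of_pos p1]
      exact mul_le_mul h10 i1 p1.le (by positivity)
    have t2 : |κ' * (r⁻¹ - r'⁻¹)| ≤ C * (C ^ 3 * s) := by
      rw [abs_mul]
      exact mul_le_mul h8 hi (abs_nonneg _) hC0.le
    have t3 : C ^ 2 ≤ C ^ 4 := pow_le_pow_right₀ hC (by norm_num)
    have t4 : C ^ 2 * s ≤ C ^ 4 * s := mul_le_mul_of_nonneg_right t3 hs
    rw [e]
    refine (abs_sub _ _).trans ?_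
    nlinarith
  have hWW : |W - W'| ≤ J' / (2 * C1) := by
    have t1 : |(n' * r'⁻¹ ^ 2 - n * r⁻¹ ^ 2) / 2 * (b + c)| ≤ 2 * C ^ 6 * s * J' := by
      rw [abs_mul, abs_div, abs_of_pos (by norm_num : (0 : ℝ) < 2)]
      calc |n' * r'⁻¹ ^ 2 - n * r⁻¹ ^ 2| / 2 * |b + c| ≤ (4 * C ^ 5 * s) / 2 * (C * J') := by
            refine mul_le_mul (by linarith) hbc (abs_nonneg _) (by positivity)
        _ = 2 * C ^ 6 * s * J' := by ring
    have t2 : |(κ' * r'⁻¹ - κ * r⁻¹) * x| ≤ 2 * C ^ 4 * s * (C1 * J') := by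
      rw [abs_mul]
      exact mul_le_mul e4 c5 (abs_nonneg _) (by positivity)
    have t3 : 2 * C ^ 6 * s * J' ≤ 2 * C ^ 6 * s * J' * C1 := le_mul_of_one_le_right (by positivity) hC1
    have t4 : C ^ 4 * (s * (C1 * J')) ≤ C ^ 6 * (s * (C1 * J')) :=
      mul_le_mul_of_nonneg_right (pow_le_pow_right₀ hC (by norm_num)) (by positivity)
    have t5 : |W - W'| ≤ 4 * C ^ 6 * C1 * s * J' := by
      rw [e2]
      refine (abs_add_le _ _).trans ?_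
      nlinarith
    refine t5.trans ?_
    rw [le_div_iff₀ (by positivity)]
    calc 4 * C ^ 6 * C1 * s * J' * (2 * C1) = (4 * C ^ 6 * C1 * s * (2 * C1)) * J' := by ring
      _ ≤ 1 * J' := mul_le_mul_of_nonneg_right s2 hJ0.le
      _ = J' := one_mul _
  obtain ⟨j1, j2⟩ := abs_le.mp hJJ
  obtain ⟨w1, w2'⟩ := abs_le.mp hWW
  have hJ1 : J' ≤ 2 * J := by linarith
  have hJ2 : J ≤ 2 * J' := by linarith
  have hJp : 0 < J := by linarith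
  -- `W ≥ J'/(2 C1)`
  have f1 : J' / C1 ≤ W' := by
    rw [div_le_iff₀ hC10]
    linarith
  have f2 : J' / (2 * C1) = J' / C1 / 2 := by
    field_simp
  have f3 : J' / C1 / 2 ≤ W := by linarith
  have f4 : J' ≤ 2 * C1 * W := by
    have : J' / C1 ≤ 2 * W := by linarith
    rw [div_le_iff₀ hC10] at this
    linarith
  have f5 : J' / C1 / 2 ≤ J' := by
    have : J' / C1 ≤ J' := div_le_self hJ0.le hC1
    linarith
  refine ⟨?_, ?_, ?_, ?_, ?_⟩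
  · have a1 : d / (10 * C1) = d / C1 / 10 := by
      field_simp
    rw [a1]
    have a2 : 0 < d / C1 := div_pos hd hC10
    linarith
  · have a1 : 0 < C1 * d := mul_pos hC10 hd
    linarith
  · have a1 : 0 < C1 * W := by linarith
    linarith
  · have a1 : J' ≤ C1 * J' := le_mul_of_one_le_left hJ0.le hC1
    have a2 : C1 * J' ≤ C1 * (2 * J) := mul_le_mul_of_nonneg_left hJ1 hC10.le
    have a3 : 0 < C1 * J := mul_pos hC10 hJp
    linarith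
  · have a2 : C1 * J' ≤ C1 * (2 * J) := mul_le_mul_of_nonneg_left hJ1 hC10.le
    have a3 : 0 < C1 * J := mul_pos hC10 hJp
    linarith

theorem GUC_proof (h1 : GCP_stmt) : GUC_stmt := by
  intro k C1 hk hC1
  obtain ⟨C, hC, hG⟩ := h1 k hk
  have hC0 : 0 < C := by linarith
  have hC10 : 0 < C1 := by linarith
  have hX : 0 < 8 * C ^ 8 * C1 ^ 2 := by positivity
  refine ⟨min k (1 / (8 * C ^ 8 * C1 ^ 2)), lt_min hk (by positivity), min_le_left _ _, ?_⟩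
  intro Γ B D D' E γ hD hD' hE hcl hγ
  obtain ⟨s, hs⟩ : ∃ s, s = min k (1 / (8 * C ^ 8 * C1 ^ 2)) := ⟨_, rfl⟩
  rw [← hs] at hE hcl
  have hs0 : 0 < s := by rw [hs]; exact lt_min hk (by positivity)
  have hsk : s ≤ k := by rw [hs]; exact min_le_left _ _
  have hs1 : s * (8 * C ^ 8 * C1 ^ 2) ≤ 1 := by
    have : s ≤ 1 / (8 * C ^ 8 * C1 ^ 2) := by rw [hs]; exact min_le_right _ _
    rwa [le_div_iff₀ hX] at this
  have hg := hG Γ B D.U D'.U s E hD.pot hD'.pot hs0.le hsk hE hcl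
  refine ⟨hγ.cont, ?_⟩
  intro v v' hv hvv hv' y hy
  obtain ⟨c1, c2, c3, c4, c5⟩ := hγ.cone v v' hv hvv hv' y hy
  obtain ⟨g1, g2, g3, g4, g5, g6, g7, g8, g9, g10, g11⟩ := hg (γ v)
  exact GUC_alg C C1 s (rho D.U 0 (γ v)) (rho D'.U E (γ v)) (n1 D.U (γ v)) (n1 D'.U (γ v)) (kap D.U 0 (γ v)) (kap D'.U E (γ v))
    (y.1 0 1) (y.1 1 0) (y.1 0 0 - y.1 1 1) (v' - v) _ _ _ _ hC hC1 hs0.le hs1 g1 g3 g6 g8 g9 g10 g11 rfl rfl rfl rfl (by linarith) c1 c2 c3 c4 c5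

end

end Pool.Agent.VNE
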